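import Pool.Agent.Q84.MomA
import Pool.Agent.Q84.MomB
import Pool.Agent.Q84.MomC

/-!
# MP_110370: the sharp `L^2 → L^{2d}` extension inequality for the moment curve over `𝔽_q`,
for every `d ≥ 2`, every prime `p > d` and every `q = p^n`, together with its maximizers.
-/

namespace Pool.Agent.Results.MP_110370_an.MomentCurve

open Finset Pool.Agent.Q84

/-- the moment curve `Γ = {(t, t^2, …, t^d)}` -/
def Gam (F : Type*) [Field F] (d : ℕ) : Set (Fin d → F) :=
  Set.range fun t : F => fun i : Fin d => t ^ (i.val + 1)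

noncomputable instance (F : Type*) [Field F] [Fintype F] (d : ℕ) : Fintype (Gam F d) :=
  Fintype.ofFinite _

/-- `e(y) = exp(2πi Tr(y)/p)` -/
noncomputable def e (p : ℕ) {F : Type*} [Field F] [Algebra (ZMod p) F] (y : F) : ℂ :=
  Complex.exp (2 * Real.pi * Complex.I * ((Algebra.trace (ZMod p) F y).val : ℂ) / p)

/-- the extension operator `(fσ)^∨(x) = (1/q) ∑_{ξ ∈ Γ} f(ξ) e(x·ξ)` -/
noncomputable def ext (p : ℕ) {F : Type*} [Field F] [Fintype F] [Algebra (ZMod p) F] {d : ℕ}
    (f : Gam F d → ℂ) (x : Fin d → F) : ℂ :=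
  (1 / (Fintype.card F : ℂ)) * ∑ ξ : Gam F d, f ξ * e p (∑ i, x i * ξ.1 i)

/-- the `L^{2d}` norm (counting measure on `𝔽_q^d`) -/
noncomputable def normL2d {F : Type*} [Fintype F] {d : ℕ} (g : (Fin d → F) → ℂ) : ℝ := by
  classical
  exact (∑ x : Fin d → F, ‖g x‖ ^ (2 * d)) ^ (1 / (2 * d : ℝ))

/-- the `L^2(σ)` norm (normalized counting measure on `Γ`) -/
noncomputable def normL2 {F : Type*} [Field F] [Fintype F] {d : ℕ} (f : Gam F d → ℂ) : ℝ :=
  ((1 / (Fintype.card F : ℝ)) * ∑ ξ : Gam F d, ‖f ξ‖ ^ 2) ^ (1 / 2 : ℝ)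

/-- `b_j(ℓ)`: the number of `i` with `ℓ_i = j`, plus `q - d` if `j = 0` -/
def b (d q : ℕ) (ℓ : Fin d → ℕ) (j : ℕ) : ℕ :=
  (Finset.univ.filter fun i => ℓ i = j).card + if j = 0 then q - d else 0

/-- `C_{d,q} = (q^{-d} ∑_{ℓ ∈ P_d} (d!/∏ ℓ_i!)^2 · q!/(b_0!⋯b_d!))^{1/(2d)}`, the sum being over the
nonincreasing `ℓ : {1..d} → ℕ` with sum `d`. -/
noncomputable def Cdq (d q : ℕ) : ℝ := by
  classical
  exact (((q : ℝ) ^ d)⁻¹ *
    ∑ ℓ ∈ ((Finset.univ : Finset (Fin d)).piAntidiag d).filter (fun ℓ => Antitone ℓ),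
      ((d.factorial : ℝ) / ∏ i, ((ℓ i).factorial : ℝ)) ^ 2 *
        ((q.factorial : ℝ) / ∏ j ∈ Finset.range (d + 1), ((b d q ℓ j).factorial : ℝ)))
    ^ (1 / (2 * d : ℝ))

/-- the character `e` as an additive character -/
noncomputable def psi (p : ℕ) [Fact p.Prime] (F : Type*) [Field F] [Algebra (ZMod p) F] :
    AddChar F ℂ :=
  (ZMod.stdAddChar (N := p)).compAddMonoidHom (Algebra.trace (ZMod p) F).toAddMonoidHom

lemma psi_apply (p : ℕ) [Fact p.Prime] {F : Type*} [Field F] [Algebra (ZMod p) F] (y : F) :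
    psi p F y = e p y := by
  have h1 : psi p F y = ZMod.stdAddChar (N := p) (Algebra.trace (ZMod p) F y) := rfl
  rw [h1, ZMod.stdAddChar_apply, ZMod.toCircle_apply, e]

lemma psi_primitive (p : ℕ) [Fact p.Prime] (F : Type*) [Field F] [Fintype F]
    [Algebra (ZMod p) F] : (psi p F).IsPrimitive := by
  apply AddChar.IsPrimitive.of_ne_one
  intro h
  obtain ⟨y, hy⟩ := Algebra.trace_surjective (ZMod p) F 1
  have h1 : psi p F y = 1 := by rw [h]; rfl
  have h2 : ZMod.stdAddChar (N := p) (Algebra.trace (ZMod p) F y) = 1 := h1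
  rw [hy, ← (ZMod.stdAddChar (N := p)).map_zero_eq_one] at h2
  exact one_ne_zero (ZMod.injective_stdAddChar h2)

/-- parametrisation of the curve -/
noncomputable def param (F : Type*) [Field F] (d : ℕ) (hd : 2 ≤ d) : F ≃ Gam F d :=
  Equiv.ofBijective (fun t => ⟨fun i : Fin d => t ^ (i.val + 1), ⟨t, rfl⟩⟩) (by
    constructor
    · intro s t hst
      have h1 := congrArg Subtype.val hst
      have h2 := congrFun h1 ⟨0, by omega⟩
      simpa using h2
    · rintro ⟨ξ, t, ht⟩
      exact ⟨t, Subtype.ext ht⟩)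

lemma param_coe {F : Type*} [Field F] {d : ℕ} (hd : 2 ≤ d) (t : F) (i : Fin d) :
    (param F d hd t).1 i = t ^ (i.val + 1) := rfl

/-- **Theorem.** For all `d ≥ 2`, all primes `p > d` and all finite fields `F` of characteristic
`p` (so `q = |F|` is any power of `p`): (a) `‖(fσ)^∨‖_{2d} ≤ C_{d,q} ‖f‖_2` for every `f`;
(b) there is a maximizer; (c) a nonzero `f` is a maximizer iff `|f|` is constant. -/
theorem result (d : ℕ) (hd : 2 ≤ d) (p : ℕ) [Fact p.Prime] (hp : d < p) (F : Type*) [Field F]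
    [Fintype F] [Algebra (ZMod p) F] :
    (∀ f : Gam F d → ℂ, normL2d (ext p f) ≤ Cdq d (Fintype.card F) * normL2 f) ∧
    (∃ f : Gam F d → ℂ, f ≠ 0 ∧ normL2d (ext p f) = Cdq d (Fintype.card F) * normL2 f) ∧
    (∀ f : Gam F d → ℂ, f ≠ 0 →
      (normL2d (ext p f) = Cdq d (Fintype.card F) * normL2 f ↔
        ∃ c : ℝ, ∀ ξ : Gam F d, ‖f ξ‖ = c)) := by
  classical
  set q := Fintype.card F with hq
  have hpq : p ≤ q := by
    have := Fintype.card_le_of_injective (algebraMap (ZMod p) F) (algebraMap (ZMod p) F).injective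
    rwa [ZMod.card] at this
  have hdq : d ≤ q := by omega
  have hq0 : (0 : ℝ) < q := by
    have : 0 < q := by omega
    exact_mod_cast this
  have hchar : ∀ k : ℕ, 0 < k → k ≤ d → (k : F) ≠ 0 := by
    intro k h0 hk h
    have h1 : algebraMap (ZMod p) F (k : ZMod p) = 0 := by
      rw [map_natCast, h]
    have h2 : ((k : ℕ) : ZMod p) = 0 := by
      rwa [map_eq_zero] at h1
    rw [ZMod.natCast_eq_zero_iff] at h2
    have := Nat.le_of_dvd h0 h2
    omega
  -- the functional and the constant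
  set D : ℝ := ((d.factorial : ℝ)) ^ 2 * MomA.H d (fun _ : F => (1 : ℝ)) with hD
  have hDpos : 0 < D := by
    have := MomA.H_one_pos (ι := F) d
    positivity
  have hC : Cdq d q = (((q : ℝ) ^ d)⁻¹ * D) ^ (1 / (2 * d : ℝ)) := by
    have h1 : D = ∑ ℓ ∈ ((Finset.univ : Finset (Fin d)).piAntidiag d).filter
        (fun ℓ => Antitone ℓ),
      ((d.factorial : ℝ) / ∏ i, ((ℓ i).factorial : ℝ)) ^ 2 *
        ((q.factorial : ℝ) / ∏ j ∈ Finset.range (d + 1), ((b d q ℓ j).factorial : ℝ)) := by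
      rw [hD, MomA.H_eq_multinomial]
      have h2 := MomC.regroup (ι := F) d hdq (fun n => ((d.factorial : ℝ) / (n : ℝ)) ^ 2)
      have h3 : ∑ m ∈ (Finset.univ : Finset F).piAntidiag d,
          ((Nat.multinomial Finset.univ m : ℝ)) ^ 2 * ∏ t : F, (1 : ℝ) ^ m t =
          ∑ m ∈ (Finset.univ : Finset F).piAntidiag d,
            ((d.factorial : ℝ) / ((∏ i, (m i).factorial : ℕ) : ℝ)) ^ 2 := by
        apply Finset.sum_congr rfl
        intro m hm
        rw [Finset.mem_piAntidiag] at hm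
        have hspec := Nat.multinomial_spec Finset.univ m
        have hm1 : ∑ i, m i = d := hm.1
        rw [hm1] at hspec
        have hspec' : ((∏ i, (m i).factorial : ℕ) : ℝ) * (Nat.multinomial Finset.univ m : ℝ) =
            (d.factorial : ℝ) := by exact_mod_cast hspec
        have hne : ((∏ i, (m i).factorial : ℕ) : ℝ) ≠ 0 := by
          have : 0 < ∏ i, (m i).factorial := Finset.prod_pos (fun i _ => Nat.factorial_pos _)
          positivity
        rw [← hspec']
        simp only [one_pow, Finset.prod_const_one, mul_one]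
        rw [mul_div_cancel_left₀ _ hne]
      rw [h3, h2]
      have h4 : MomC.Pd d = ((Finset.univ : Finset (Fin d)).piAntidiag d).filter
          (fun ℓ => Antitone ℓ) := by
        ext ℓ
        rw [MomC.mem_Pd]
        simp [Finset.mem_filter, Finset.mem_piAntidiag, and_comm]
      rw [h4]
      apply Finset.sum_congr rfl
      intro ℓ _
      push_cast
      rfl
    rw [h1, Cdq]
  have key : ∀ f : Gam F d → ℂ, ∃ x : F → ℝ, (∀ t, x t = ‖f (param F d hd t)‖ ^ 2) ∧
      normL2d (ext p f) = (((q : ℝ) ^ d)⁻¹ * (((d.factorial : ℝ)) ^ 2 * MomA.H d x)) ^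
        (1 / (2 * d : ℝ)) ∧
      Cdq d q * normL2 f = (((q : ℝ) ^ d)⁻¹ * (((d.factorial : ℝ)) ^ 2 *
        (((∑ t, x t) / q) ^ d * MomA.H d (fun _ : F => (1 : ℝ))))) ^ (1 / (2 * d : ℝ)) := by
    intro f
    set g : F → ℂ := fun t => f (param F d hd t) with hg
    refine ⟨fun t => ‖g t‖ ^ 2, fun t => rfl, ?_, ?_⟩
    · have h1 : ∀ x : Fin d → F, ext p f x = (1 / (q : ℂ)) * MomB.G (psi p F) g x := by
        intro x
        rw [ext, MomB.G]
        congr 1
        rw [← Equiv.sum_comp (param F d hd)]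
        apply Finset.sum_congr rfl
        intro t _
        rw [psi_apply]
        rfl
      have h2 : ∀ x : Fin d → F, ‖ext p f x‖ ^ (2 * d) =
          ((q : ℝ) ^ (2 * d))⁻¹ * ‖MomB.G (psi p F) g x‖ ^ (2 * d) := by
        intro x
        rw [h1, norm_mul, mul_pow]
        congr 1
        rw [norm_div, norm_one, Complex.norm_natCast, one_div, inv_pow]
      have h3 : ∑ x : Fin d → F, ‖ext p f x‖ ^ (2 * d) =
          ((q : ℝ) ^ d)⁻¹ * (((d.factorial : ℝ)) ^ 2 * MomA.H d (fun t => ‖g t‖ ^ 2)) := by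
        rw [Finset.sum_congr rfl (fun x _ => h2 x), ← Finset.mul_sum,
          MomB.moment_identity hchar (psi p F) (psi_primitive p F) g, MomA.H_eq_multinomial,
          ← hq, two_mul, pow_add]
        field_simp
      rw [normL2d, h3]
    · have h5 : ∑ ξ : Gam F d, ‖f ξ‖ ^ 2 = ∑ t, ‖g t‖ ^ 2 := by
        rw [← Equiv.sum_comp (param F d hd)]
      have hS0 : 0 ≤ (∑ t, ‖g t‖ ^ 2) / q := by positivity
      have h6 : normL2 f = (((∑ t, ‖g t‖ ^ 2) / q) ^ d) ^ (1 / (2 * d : ℝ)) := by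
        rw [normL2, h5, ← Real.rpow_natCast, ← Real.rpow_mul hS0]
        congr 1
        · rw [← hq]
          ring
        · have : (d : ℝ) ≠ 0 := by
            have : 0 < d := by omega
            positivity
          field_simp
      rw [hC, h6, ← Real.mul_rpow (by positivity) (by positivity)]
      congr 1
      rw [hD]
      ring
  have hexp : (0 : ℝ) < 1 / (2 * d : ℝ) := by
    have : 0 < d := by omega
    positivity
  have hHnn : ∀ x : F → ℝ, (∀ t, 0 ≤ x t) → 0 ≤ MomA.H d x := by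
    intro x hx
    rw [MomA.H_formula]
    apply Finset.sum_nonneg
    intro l _
    apply Finset.prod_nonneg
    intro i _
    have := hx i
    positivity
  have hchar3 : ∀ f : Gam F d → ℂ,
      (normL2d (ext p f) = Cdq d q * normL2 f ↔ ∃ c : ℝ, ∀ ξ : Gam F d, ‖f ξ‖ = c) := by
    intro f
    obtain ⟨x, hx, h1, h2⟩ := key f
    have hx0 : ∀ t, 0 ≤ x t := fun t => by rw [hx t]; positivity
    have hfin := (MomA.final (ι := F) d hd x hx0).2
    have hH1 := hHnn x hx0
    have hH2 := MomA.H_one_pos (ι := F) d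
    have hS0 : 0 ≤ (∑ t, x t) / q := div_nonneg (Finset.sum_nonneg fun t _ => hx0 t) hq0.le
    rw [h1, h2]
    have hpos1 : 0 ≤ ((q : ℝ) ^ d)⁻¹ * (((d.factorial : ℝ)) ^ 2 * MomA.H d x) := by positivity
    have hpos2 : 0 ≤ ((q : ℝ) ^ d)⁻¹ * (((d.factorial : ℝ)) ^ 2 *
        (((∑ t, x t) / q) ^ d * MomA.H d (fun _ : F => (1 : ℝ)))) := by positivity
    rw [Real.rpow_left_inj hpos1 hpos2 hexp.ne']
    have hne1 : ((q : ℝ) ^ d)⁻¹ ≠ 0 := by positivity
    have hne2 : ((d.factorial : ℝ)) ^ 2 ≠ 0 := by positivity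
    rw [mul_right_inj' hne1, mul_right_inj' hne2, hfin]
    constructor
    · intro h
      refine ⟨‖f (param F d hd 0)‖, ?_⟩
      intro ξ
      obtain ⟨t, rfl⟩ := (param F d hd).surjective ξ
      have h3 := h t 0
      rw [hx, hx] at h3
      exact (pow_left_inj₀ (norm_nonneg _) (norm_nonneg _) (by norm_num)).mp h3
    · rintro ⟨c, hc⟩ i j
      rw [hx, hx, hc, hc]
  refine ⟨?_, ?_, fun f _ => hchar3 f⟩
  · intro f
    obtain ⟨x, hx, h1, h2⟩ := key f
    have hx0 : ∀ t, 0 ≤ x t := fun t => by rw [hx t]; positivity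
    have hfin := (MomA.final (ι := F) d hd x hx0).1
    have hH1 := hHnn x hx0
    rw [h1, h2]
    apply Real.rpow_le_rpow (by positivity) _ hexp.le
    gcongr
  · refine ⟨fun _ => 1, ?_, ?_⟩
    · intro h
      have := congrFun h (param F d hd 0)
      simp at this
    · rw [hchar3]
      exact ⟨1, fun ξ => by simp⟩

end Pool.Agent.Results.MP_110370_an.MomentCurve
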